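import Pool.Agent.Q234.KT.Stm

/-!
# Project KT of helper234, job KT-AL: the rooted norm is submultiplicative
-/

set_option autoImplicit false

open scoped BigOperators
open Finset

namespace Pool.Agent.Q192.KT.AL

open Pool.Agent.Q234.KT

section

variable {V : Type} [Fintype V] [DecidableEq V]

/-- the convolution of two functions on the finite sets: the total sum is the product -/
theorem conv (a b : Finset V → ℝ) :
    ∑ Z : Finset V, ∑ X : Finset V, a X * b (symmDiff X Z) = (∑ X, a X) * ∑ Y, b Y := by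
  rw [Finset.sum_comm, Finset.sum_mul]
  refine Finset.sum_congr rfl fun X _ => ?_
  rw [← Finset.mul_sum]
  congr 1
  exact Fintype.sum_equiv (Function.Involutive.toPerm (fun Z => symmDiff X Z)
    (fun Z => symmDiff_symmDiff_cancel_left X Z)) _ _ (fun Z => rfl)

end

theorem main (hW : WalshS) : AlgS := by
  intro V _ _ t r S ht hr hS F G
  have h3 := (hW V).2.2.1
  have hr0 : (0 : ℝ) ≤ r := by linarith
  have hpow : ∀ X Z : Finset V,
      r ^ t (S ∪ Z) ≤ r ^ t (S ∪ X) * r ^ t (S ∪ symmDiff X Z) := by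
    intro X Z
    rw [← pow_add]
    refine pow_le_pow_right₀ hr ?_
    have hsub : S ∪ Z ⊆ (S ∪ X) ∪ (S ∪ symmDiff X Z) := by
      intro v hv
      simp only [Finset.mem_union, Finset.mem_symmDiff] at hv ⊢
      tauto
    refine (ht.mono _ _ hsub).trans (ht.union _ _ ?_)
    obtain ⟨v, hv⟩ := hS
    exact ⟨v, by simp [hv]⟩
  have hpt : ∀ Z : Finset V, ‖co (fun σ => F σ * G σ) Z‖ * r ^ t (S ∪ Z) ≤
      ∑ X : Finset V, (‖co F X‖ * r ^ t (S ∪ X)) *
        (‖co G (symmDiff X Z)‖ * r ^ t (S ∪ symmDiff X Z)) := by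
    intro Z
    have h1 : ‖co (fun σ => F σ * G σ) Z‖ ≤ ∑ X : Finset V, ‖co F X‖ * ‖co G (symmDiff X Z)‖ := by
      rw [h3 F G Z]
      refine (norm_sum_le _ _).trans (le_of_eq ?_)
      exact Finset.sum_congr rfl fun X _ => norm_mul _ _
    calc ‖co (fun σ => F σ * G σ) Z‖ * r ^ t (S ∪ Z)
        ≤ (∑ X : Finset V, ‖co F X‖ * ‖co G (symmDiff X Z)‖) * r ^ t (S ∪ Z) :=
          mul_le_mul_of_nonneg_right h1 (pow_nonneg hr0 _)
      _ = ∑ X : Finset V, ‖co F X‖ * ‖co G (symmDiff X Z)‖ * r ^ t (S ∪ Z) := by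
          rw [Finset.sum_mul]
      _ ≤ ∑ X : Finset V, (‖co F X‖ * r ^ t (S ∪ X)) *
        (‖co G (symmDiff X Z)‖ * r ^ t (S ∪ symmDiff X Z)) := by
          refine Finset.sum_le_sum fun X _ => ?_
          calc ‖co F X‖ * ‖co G (symmDiff X Z)‖ * r ^ t (S ∪ Z)
              ≤ ‖co F X‖ * ‖co G (symmDiff X Z)‖ *
                (r ^ t (S ∪ X) * r ^ t (S ∪ symmDiff X Z)) :=
                mul_le_mul_of_nonneg_left (hpow X Z) (by positivity)
            _ = _ := by ring
  set a : Finset V → ℝ := fun X => ‖co F X‖ * r ^ t (S ∪ X) with ha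
  set b : Finset V → ℝ := fun X => ‖co G X‖ * r ^ t (S ∪ X) with hb
  have ha0 : ∀ X, 0 ≤ a X := fun X => by simp only [ha]; positivity
  have hb0 : ∀ X, 0 ≤ b X := fun X => by simp only [hb]; positivity
  refine ⟨?_, ?_⟩
  · have : nm r t S (fun σ => F σ * G σ) ≤ ∑ Z : Finset V, ∑ X : Finset V, a X * b (symmDiff X Z) :=
      Finset.sum_le_sum fun Z _ => hpt Z
    rw [conv] at this
    exact this
  · intro x
    have e1 : nx r t S x (fun σ => F σ * G σ) ≤
        ∑ Z : Finset V, ∑ X : Finset V, ((if x ∈ X then a X else 0) * b (symmDiff X Z) +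
          a X * (if x ∈ symmDiff X Z then b (symmDiff X Z) else 0)) := by
      unfold nx
      rw [Finset.sum_filter]
      refine Finset.sum_le_sum fun Z _ => ?_
      by_cases hx : x ∈ Z
      · rw [if_pos hx]
        refine (hpt Z).trans (Finset.sum_le_sum fun X _ => ?_)
        have hab : 0 ≤ a X * b (symmDiff X Z) := mul_nonneg (ha0 _) (hb0 _)
        by_cases h1 : x ∈ X
        · rw [if_pos h1]
          have : 0 ≤ a X * (if x ∈ symmDiff X Z then b (symmDiff X Z) else 0) := by
            refine mul_nonneg (ha0 _) ?_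
            split_ifs
            · exact hb0 _
            · exact le_rfl
          show a X * b (symmDiff X Z) ≤ _
          linarith
        · have h2 : x ∈ symmDiff X Z := by
            rw [Finset.mem_symmDiff]
            exact Or.inr ⟨hx, h1⟩
          rw [if_neg h1, if_pos h2]
          show a X * b (symmDiff X Z) ≤ _
          linarith
      · rw [if_neg hx]
        refine Finset.sum_nonneg fun X _ => add_nonneg (mul_nonneg ?_ (hb0 _))
          (mul_nonneg (ha0 _) ?_)
        · split_ifs
          · exact ha0 _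
          · exact le_rfl
        · split_ifs
          · exact hb0 _
          · exact le_rfl
    refine e1.trans (le_of_eq ?_)
    simp only [Finset.sum_add_distrib]
    rw [conv (fun X => if x ∈ X then a X else 0) b,
      conv a (fun Y => if x ∈ Y then b Y else 0)]
    unfold nx nm
    simp only [Finset.sum_filter]
    rfl

end Pool.Agent.Q192.KT.AL
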