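import Pool.Agent.Q234.KT.Stm

/-!
# Project KT of helper234, job KT-EX: the exponential of a small function
-/

set_option autoImplicit false

open scoped BigOperators
open Finset

namespace Pool.Agent.Q192.KT.EX

open Pool.Agent.Q234.KT

section

variable {V : Type} [Fintype V] [DecidableEq V]

/-- the norm restricted to a family of sets -/
noncomputable def NN (r : ℝ) (t : Finset V → ℕ) (S : Finset V) (s : Finset (Finset V))
    (F : (V → Fin 2) → ℂ) : ℝ := ∑ X ∈ s, ‖co F X‖ * r ^ t (S ∪ X)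

theorem nm_eq (r : ℝ) (t : Finset V → ℕ) (S : Finset V) (F : (V → Fin 2) → ℂ) :
    nm r t S F = NN r t S univ F := rfl

theorem nx_eq (r : ℝ) (t : Finset V → ℕ) (S : Finset V) (x : V) (F : (V → Fin 2) → ℂ) :
    nx r t S x F = NN r t S (univ.filter (fun X : Finset V => x ∈ X)) F := rfl

theorem NN_nonneg {r : ℝ} (hr : 0 ≤ r) (t : Finset V → ℕ) (S : Finset V) (s : Finset (Finset V))
    (F : (V → Fin 2) → ℂ) : 0 ≤ NN r t S s F :=
  Finset.sum_nonneg fun X _ => by positivity

theorem co_add (F G : (V → Fin 2) → ℂ) (X : Finset V) :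
    co (fun σ => F σ + G σ) X = co F X + co G X := by
  unfold co
  rw [← mul_add, ← Finset.sum_add_distrib]
  congr 1
  exact Finset.sum_congr rfl fun σ _ => by ring

theorem co_smul (c : ℂ) (F : (V → Fin 2) → ℂ) (X : Finset V) :
    co (fun σ => c * F σ) X = c * co F X := by
  have h : ∑ σ, (c * F σ) * ch X σ = c * ∑ σ, F σ * ch X σ := by
    rw [Finset.mul_sum]
    exact Finset.sum_congr rfl fun σ _ => by ring
  unfold co
  rw [h]
  ring

theorem NN_add {r : ℝ} (hr : 0 ≤ r) (t : Finset V → ℕ) (S : Finset V) (s : Finset (Finset V))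
    (F G : (V → Fin 2) → ℂ) :
    NN r t S s (fun σ => F σ + G σ) ≤ NN r t S s F + NN r t S s G := by
  unfold NN
  rw [← Finset.sum_add_distrib]
  refine Finset.sum_le_sum fun X _ => ?_
  rw [← add_mul, co_add]
  exact mul_le_mul_of_nonneg_right (norm_add_le _ _) (pow_nonneg hr _)

theorem NN_smul (r : ℝ) (t : Finset V → ℕ) (S : Finset V) (s : Finset (Finset V))
    (c : ℂ) (F : (V → Fin 2) → ℂ) :
    NN r t S s (fun σ => c * F σ) = ‖c‖ * NN r t S s F := by
  unfold NN
  rw [Finset.mul_sum]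
  refine Finset.sum_congr rfl fun X _ => ?_
  rw [co_smul, norm_mul]
  ring

/-- countable subadditivity -/
theorem NN_hasSum {r : ℝ} (hr : 0 ≤ r) (t : Finset V → ℕ) (S : Finset V) (s : Finset (Finset V))
    (H : ℕ → (V → Fin 2) → ℂ) (G : (V → Fin 2) → ℂ) (hH : ∀ σ, HasSum (fun k => H k σ) (G σ))
    (c : ℕ → ℝ) (hc : ∀ k, NN r t S s (H k) ≤ c k) (C : ℝ)
    (hC : ∀ n, ∑ k ∈ range n, c k ≤ C) : NN r t S s G ≤ C := by
  have h1 : ∀ X : Finset V, HasSum (fun k => co (H k) X) (co G X) := by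
    intro X
    unfold co
    exact (hasSum_sum fun σ _ => (hH σ).mul_right (ch X σ)).mul_left _
  have h2 : ∀ X : Finset V, Filter.Tendsto (fun n => ‖∑ k ∈ range n, co (H k) X‖ * r ^ t (S ∪ X))
      Filter.atTop (nhds (‖co G X‖ * r ^ t (S ∪ X))) := by
    intro X
    exact ((h1 X).tendsto_sum_nat.norm).mul_const _
  have h3 : Filter.Tendsto (fun n => ∑ X ∈ s, ‖∑ k ∈ range n, co (H k) X‖ * r ^ t (S ∪ X))
      Filter.atTop (nhds (NN r t S s G)) := tendsto_finsetSum _ fun X _ => h2 X
  refine le_of_tendsto' h3 fun n => ?_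
  calc ∑ X ∈ s, ‖∑ k ∈ range n, co (H k) X‖ * r ^ t (S ∪ X)
      ≤ ∑ X ∈ s, (∑ k ∈ range n, ‖co (H k) X‖) * r ^ t (S ∪ X) :=
        Finset.sum_le_sum fun X _ =>
          mul_le_mul_of_nonneg_right (norm_sum_le _ _) (pow_nonneg hr _)
    _ = ∑ X ∈ s, ∑ k ∈ range n, ‖co (H k) X‖ * r ^ t (S ∪ X) :=
        Finset.sum_congr rfl fun X _ => Finset.sum_mul _ _ _
    _ = ∑ k ∈ range n, NN r t S s (H k) := Finset.sum_comm
    _ ≤ ∑ k ∈ range n, c k := Finset.sum_le_sum fun k _ => hc k
    _ ≤ C := hC n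

/-- `∑_(k<n) 1/k! ≤ 4` -/
theorem sum_inv_fact (n : ℕ) : ∑ k ∈ range n, (1 : ℝ) / (k.factorial : ℝ) ≤ 3 := by
  have h := Real.sum_le_exp_of_nonneg (zero_le_one (α := ℝ)) n
  have h2 := Real.exp_one_lt_d9
  simp only [one_pow] at h
  linarith

theorem hasSum_exp' (z : ℂ) : HasSum (fun k : ℕ => z ^ k / (k.factorial : ℂ)) (Complex.exp z) := by
  have h := NormedSpace.expSeries_div_hasSum_exp (𝔸 := ℂ) z
  rwa [← Complex.exp_eq_exp_ℂ] at h

end

theorem main (hA : AlgS) : ExpS := by
  intro V _ _ t r S ht hr hS F F' M hF hF' hM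
  have hr0 : (0 : ℝ) ≤ r := by linarith
  have hM0 : 0 ≤ M := (NN_nonneg hr0 t S univ F).trans hF
  set D : (V → Fin 2) → ℂ := fun σ => F σ - F' σ with hD
  set N : ((V → Fin 2) → ℂ) → ℝ := NN r t S univ with hN
  have hN0 : ∀ G, 0 ≤ N G := fun G => NN_nonneg hr0 t S univ G
  have hmul : ∀ G H : (V → Fin 2) → ℂ, N (fun σ => G σ * H σ) ≤ N G * N H :=
    fun G H => (hA V t r S ht hr hS G H).1
  have hmulx : ∀ (x : V) (G H : (V → Fin 2) → ℂ), nx r t S x (fun σ => G σ * H σ) ≤
      nx r t S x G * N H + N G * nx r t S x H := fun x G H => (hA V t r S ht hr hS G H).2 x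
  have hx0 : ∀ (x : V) G, 0 ≤ nx r t S x G := fun x G => NN_nonneg hr0 t S _ G
  have haddN : ∀ G H : (V → Fin 2) → ℂ, N (fun σ => G σ + H σ) ≤ N G + N H :=
    fun G H => NN_add hr0 t S univ G H
  have haddx : ∀ (x : V) (G H : (V → Fin 2) → ℂ), nx r t S x (fun σ => G σ + H σ) ≤
      nx r t S x G + nx r t S x H := fun x G H => NN_add hr0 t S _ G H
  have hFM : N F ≤ M := hF
  have hFM' : N F' ≤ M := hF'
  -- powers
  have hpN : ∀ j : ℕ, N (fun σ => F σ ^ (j + 1)) ≤ M := by
    intro j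
    induction j with
    | zero => simpa using hFM
    | succ j ih =>
      have e : (fun σ => F σ ^ (j + 1 + 1)) = fun σ => (fun σ => F σ ^ (j + 1)) σ * F σ := by
        funext σ; exact pow_succ _ _
      rw [e]
      refine (hmul _ _).trans ?_
      calc N (fun σ => F σ ^ (j + 1)) * N F ≤ M * 1 :=
            mul_le_mul ih (hFM.trans hM) (hN0 _) hM0
        _ = M := mul_one _
  have hpX : ∀ (x : V) (j : ℕ), nx r t S x (fun σ => F σ ^ (j + 1)) ≤ (j + 1) * nx r t S x F := by
    intro x j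
    induction j with
    | zero => simp
    | succ j ih =>
      have e : (fun σ => F σ ^ (j + 1 + 1)) = fun σ => (fun σ => F σ ^ (j + 1)) σ * F σ := by
        funext σ; exact pow_succ _ _
      rw [e]
      refine (hmulx x _ _).trans ?_
      have h1 : nx r t S x (fun σ => F σ ^ (j + 1)) * N F ≤ ((j + 1) * nx r t S x F) * 1 :=
        mul_le_mul ih (hFM.trans hM) (hN0 _) (mul_nonneg (by positivity) (hx0 x F))
      have h2 : N (fun σ => F σ ^ (j + 1)) * nx r t S x F ≤ 1 * nx r t S x F :=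
        mul_le_mul_of_nonneg_right ((hpN j).trans hM) (hx0 x F)
      push_cast
      linarith
  have estep : ∀ j : ℕ, (fun σ => F σ ^ (j + 2) - F' σ ^ (j + 2)) =
      fun σ => (fun σ => (fun σ => F σ ^ (j + 1)) σ * D σ) σ +
        (fun σ => (fun σ => F σ ^ (j + 1) - F' σ ^ (j + 1)) σ * F' σ) σ := by
    intro j
    funext σ
    simp only [hD]
    ring
  have hdN : ∀ j : ℕ, N (fun σ => F σ ^ (j + 1) - F' σ ^ (j + 1)) ≤ (j + 1) * N D := by
    intro j
    induction j with
    | zero => simp [hD]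
    | succ j ih =>
      rw [show j + 1 + 1 = j + 2 from rfl, estep j]
      refine (haddN _ _).trans ?_
      have h1 := hmul (fun σ => F σ ^ (j + 1)) D
      have h2 := hmul (fun σ => F σ ^ (j + 1) - F' σ ^ (j + 1)) F'
      have h3 : N (fun σ => F σ ^ (j + 1)) * N D ≤ 1 * N D :=
        mul_le_mul_of_nonneg_right ((hpN j).trans hM) (hN0 _)
      have h4 : N (fun σ => F σ ^ (j + 1) - F' σ ^ (j + 1)) * N F' ≤ ((j + 1) * N D) * 1 :=
        mul_le_mul ih (hFM'.trans hM) (hN0 _) (mul_nonneg (by positivity) (hN0 _))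
      push_cast
      linarith
  -- the step for `nx`
  have hstep : ∀ (x : V) (j : ℕ), nx r t S x (fun σ => F σ ^ (j + 2) - F' σ ^ (j + 2)) ≤
      M * nx r t S x D + M * nx r t S x (fun σ => F σ ^ (j + 1) - F' σ ^ (j + 1)) +
        (j + 1) * (N D * (nx r t S x F + nx r t S x F')) := by
    intro x j
    rw [estep j]
    refine (haddx x _ _).trans ?_
    have h1 := hmulx x (fun σ => F σ ^ (j + 1)) D
    have h2 := hmulx x (fun σ => F σ ^ (j + 1) - F' σ ^ (j + 1)) F'
    have h3 : nx r t S x (fun σ => F σ ^ (j + 1)) * N D ≤ ((j + 1) * nx r t S x F) * N D :=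
      mul_le_mul_of_nonneg_right (hpX x j) (hN0 _)
    have h4 : N (fun σ => F σ ^ (j + 1)) * nx r t S x D ≤ M * nx r t S x D :=
      mul_le_mul_of_nonneg_right (hpN j) (hx0 x D)
    have h5 : nx r t S x (fun σ => F σ ^ (j + 1) - F' σ ^ (j + 1)) * N F' ≤
        nx r t S x (fun σ => F σ ^ (j + 1) - F' σ ^ (j + 1)) * M :=
      mul_le_mul_of_nonneg_left hFM' (hx0 x _)
    have h6 : N (fun σ => F σ ^ (j + 1) - F' σ ^ (j + 1)) * nx r t S x F' ≤
        ((j + 1) * N D) * nx r t S x F' :=
      mul_le_mul_of_nonneg_right (hdN j) (hx0 x F')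
    nlinarith [h1, h2, h3, h4, h5, h6]
  have hB : ∀ (x : V) (j : ℕ), nx r t S x (fun σ => F σ ^ (j + 1) - F' σ ^ (j + 1)) ≤
      (j + 1) * nx r t S x D + (j + 1) * j * (N D * (nx r t S x F + nx r t S x F')) := by
    intro x j
    have hE0 : 0 ≤ N D * (nx r t S x F + nx r t S x F') :=
      mul_nonneg (hN0 _) (add_nonneg (hx0 x F) (hx0 x F'))
    induction j with
    | zero => simp [hD]
    | succ j ih =>
      rw [show j + 1 + 1 = j + 2 from rfl]
      refine (hstep x j).trans ?_
      have h1 : M * nx r t S x D ≤ 1 * nx r t S x D := mul_le_mul_of_nonneg_right hM (hx0 x D)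
      have h2 : M * nx r t S x (fun σ => F σ ^ (j + 1) - F' σ ^ (j + 1)) ≤
          1 * nx r t S x (fun σ => F σ ^ (j + 1) - F' σ ^ (j + 1)) :=
        mul_le_mul_of_nonneg_right hM (hx0 x _)
      have hj : (0 : ℝ) ≤ j := Nat.cast_nonneg j
      push_cast
      nlinarith [h1, h2, ih, mul_nonneg hj hE0]
  have hCst : ∀ (x : V) (j : ℕ), nx r t S x (fun σ => F σ ^ (j + 2) - F' σ ^ (j + 2)) ≤
      (j + 2) * (M * nx r t S x D) +
        (j + 2) * (j + 1) * (N D * (nx r t S x F + nx r t S x F')) := by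
    intro x j
    have hE0 : 0 ≤ N D * (nx r t S x F + nx r t S x F') :=
      mul_nonneg (hN0 _) (add_nonneg (hx0 x F) (hx0 x F'))
    refine (hstep x j).trans ?_
    have hj : (0 : ℝ) ≤ j := Nat.cast_nonneg j
    have h2 : M * nx r t S x (fun σ => F σ ^ (j + 1) - F' σ ^ (j + 1)) ≤
        M * ((j + 1) * nx r t S x D + (j + 1) * j * (N D * (nx r t S x F + nx r t S x F'))) :=
      mul_le_mul_of_nonneg_left (hB x j) hM0
    have h3 : M * ((j + 1) * j * (N D * (nx r t S x F + nx r t S x F'))) ≤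
        1 * ((j + 1) * j * (N D * (nx r t S x F + nx r t S x F'))) :=
      mul_le_mul_of_nonneg_right hM (mul_nonneg (by positivity) hE0)
    nlinarith [h2, h3, mul_nonneg hj hE0]
  -- the series
  have hser : ∀ σ, HasSum (fun k : ℕ => (1 / (k.factorial : ℂ)) * (F σ ^ k - F' σ ^ k))
      (Complex.exp (F σ) - Complex.exp (F' σ)) := by
    intro σ
    refine ((hasSum_exp' (F σ)).sub (hasSum_exp' (F' σ))).congr_fun ?_
    intro k
    ring
  have hser1 : ∀ σ, HasSum (fun k : ℕ => (1 / ((k + 1).factorial : ℂ)) *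
      (F σ ^ (k + 1) - F' σ ^ (k + 1))) (Complex.exp (F σ) - Complex.exp (F' σ)) := by
    intro σ
    have h := (hasSum_nat_add_iff' 1).2 (hser σ)
    simpa using h
  have hser2 : ∀ σ, HasSum (fun k : ℕ => (1 / ((k + 2).factorial : ℂ)) *
      (F σ ^ (k + 2) - F' σ ^ (k + 2)))
      (Complex.exp (F σ) - Complex.exp (F' σ) - (F σ - F' σ)) := by
    intro σ
    have h := (hasSum_nat_add_iff' 2).2 (hser σ)
    simpa [Finset.sum_range_succ] using h
  have hnf : ∀ k : ℕ, ‖(1 / (k.factorial : ℂ))‖ = 1 / (k.factorial : ℝ) := by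
    intro k
    rw [norm_div, norm_one, Complex.norm_natCast]
  have hfac : ∀ j : ℕ, ((j + 1).factorial : ℝ) = (j + 1) * (j.factorial : ℝ) := by
    intro j
    rw [Nat.factorial_succ]
    push_cast
    ring
  have hf0 : ∀ j : ℕ, (0 : ℝ) < (j.factorial : ℝ) := fun j => by exact_mod_cast j.factorial_pos
  have hsum : ∀ n : ℕ, ∑ k ∈ range n, (1 : ℝ) / (k.factorial : ℝ) ≤ 3 := sum_inv_fact
  have hsumj : ∀ n : ℕ, ∑ k ∈ range n, (k : ℝ) / (k.factorial : ℝ) ≤ 3 := by
    intro n
    cases n with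
    | zero => simp
    | succ n =>
      rw [Finset.sum_range_succ']
      simp only [Nat.cast_zero, zero_div, add_zero]
      refine le_trans (le_of_eq ?_) (hsum n)
      refine Finset.sum_congr rfl fun k _ => ?_
      rw [hfac k]
      push_cast
      have := (hf0 k).ne'
      have hk : ((k : ℝ) + 1) ≠ 0 := by positivity
      field_simp
  have hsum1 : ∀ n : ℕ, ∑ k ∈ range n, (1 : ℝ) / ((k + 1).factorial : ℝ) ≤ 3 := by
    intro n
    refine (Finset.sum_le_sum fun k _ => ?_).trans (hsum n)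
    have h1 : (k.factorial : ℝ) ≤ ((k + 1).factorial : ℝ) := by
      exact_mod_cast Nat.factorial_le (Nat.le_succ k)
    exact one_div_le_one_div_of_le (hf0 k) h1
  refine ⟨?_, fun x => ⟨?_, ?_⟩⟩
  · refine (NN_hasSum hr0 t S univ
      (fun k σ => (1 / ((k + 1).factorial : ℂ)) * (F σ ^ (k + 1) - F' σ ^ (k + 1))) _
      (fun σ => hser1 σ) (fun k => 1 / (k.factorial : ℝ) * N D) ?_ (4 * N D) ?_)
    · intro k
      rw [NN_smul, hnf]
      calc 1 / ((k + 1).factorial : ℝ) * NN r t S univ (fun σ => F σ ^ (k + 1) - F' σ ^ (k + 1))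
          ≤ 1 / ((k + 1).factorial : ℝ) * ((k + 1) * N D) :=
            mul_le_mul_of_nonneg_left (hdN k) (by positivity)
        _ = 1 / (k.factorial : ℝ) * N D := by
            rw [hfac k]
            have := (hf0 k).ne'
            have hk : ((k : ℝ) + 1) ≠ 0 := by positivity
            field_simp
    · intro n
      rw [← Finset.sum_mul]
      exact mul_le_mul_of_nonneg_right ((hsum n).trans (by norm_num)) (hN0 D)
  · have hE0 : 0 ≤ N D * (nx r t S x F + nx r t S x F') :=
      mul_nonneg (hN0 _) (add_nonneg (hx0 x F) (hx0 x F'))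
    have key : nx r t S x (fun σ => Complex.exp (F σ) - Complex.exp (F' σ)) ≤
        3 * nx r t S x D + 3 * (N D * (nx r t S x F + nx r t S x F')) := by
      refine (NN_hasSum hr0 t S (univ.filter (fun X : Finset V => x ∈ X))
        (fun k σ => (1 / ((k + 1).factorial : ℂ)) * (F σ ^ (k + 1) - F' σ ^ (k + 1))) _
        (fun σ => hser1 σ)
        (fun k => 1 / (k.factorial : ℝ) * nx r t S x D +
          (k : ℝ) / (k.factorial : ℝ) * (N D * (nx r t S x F + nx r t S x F'))) ?_ _ ?_)
      · intro k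
        rw [NN_smul, hnf, ← nx_eq]
        calc 1 / ((k + 1).factorial : ℝ) * nx r t S x (fun σ => F σ ^ (k + 1) - F' σ ^ (k + 1))
            ≤ 1 / ((k + 1).factorial : ℝ) * ((k + 1) * nx r t S x D +
                (k + 1) * k * (N D * (nx r t S x F + nx r t S x F'))) :=
              mul_le_mul_of_nonneg_left (hB x k) (by positivity)
          _ = _ := by
              rw [hfac k]
              have := (hf0 k).ne'
              have hk : ((k : ℝ) + 1) ≠ 0 := by positivity
              field_simp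
      · intro n
        rw [Finset.sum_add_distrib, ← Finset.sum_mul, ← Finset.sum_mul]
        exact add_le_add (mul_le_mul_of_nonneg_right (hsum n) (hx0 x D))
          (mul_le_mul_of_nonneg_right (hsumj n) hE0)
    have h0 := hx0 x D
    have e : nm r t S (fun σ => F σ - F' σ) = N D := rfl
    rw [e]
    show _ ≤ 4 * nx r t S x D + _
    nlinarith [key, h0, hE0]
  · have hE0 : 0 ≤ N D * (nx r t S x F + nx r t S x F') :=
      mul_nonneg (hN0 _) (add_nonneg (hx0 x F) (hx0 x F'))
    have key : nx r t S x (fun σ => Complex.exp (F σ) - Complex.exp (F' σ) - (F σ - F' σ)) ≤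
        3 * (M * nx r t S x D) + 3 * (N D * (nx r t S x F + nx r t S x F')) := by
      refine (NN_hasSum hr0 t S (univ.filter (fun X : Finset V => x ∈ X))
        (fun k σ => (1 / ((k + 2).factorial : ℂ)) * (F σ ^ (k + 2) - F' σ ^ (k + 2))) _
        (fun σ => hser2 σ)
        (fun k => 1 / ((k + 1).factorial : ℝ) * (M * nx r t S x D) +
          1 / (k.factorial : ℝ) * (N D * (nx r t S x F + nx r t S x F'))) ?_ _ ?_)
      · intro k
        rw [NN_smul, hnf, ← nx_eq]
        calc 1 / ((k + 2).factorial : ℝ) * nx r t S x (fun σ => F σ ^ (k + 2) - F' σ ^ (k + 2))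
            ≤ 1 / ((k + 2).factorial : ℝ) * ((k + 2) * (M * nx r t S x D) +
                (k + 2) * (k + 1) * (N D * (nx r t S x F + nx r t S x F'))) :=
              mul_le_mul_of_nonneg_left (hCst x k) (by positivity)
          _ = _ := by
              have e2 : ((k + 2).factorial : ℝ) = (k + 2) * ((k + 1) * (k.factorial : ℝ)) := by
                rw [hfac (k + 1), hfac k]
                push_cast
                ring
              rw [e2, hfac k]
              have := (hf0 k).ne'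
              have hk : ((k : ℝ) + 1) ≠ 0 := by positivity
              have hk2 : ((k : ℝ) + 2) ≠ 0 := by positivity
              field_simp
      · intro n
        rw [Finset.sum_add_distrib, ← Finset.sum_mul, ← Finset.sum_mul]
        exact add_le_add (mul_le_mul_of_nonneg_right (hsum1 n) (mul_nonneg hM0 (hx0 x D)))
          (mul_le_mul_of_nonneg_right (hsum n) hE0)
    have h0 := mul_nonneg hM0 (hx0 x D)
    have e : nm r t S (fun σ => F σ - F' σ) = N D := rfl
    rw [e]
    show _ ≤ 4 * M * nx r t S x D + _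
    nlinarith [key, h0, hE0]

end Pool.Agent.Q192.KT.EX
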