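import Pool.Agent.Q80.KT.Stm

set_option autoImplicit false

/-! Project KT (helper80): `S_RU`. -/

namespace Q192.KT.RU

open Pool.Agent.Q80.KT

theorem t_RU : S_RU := by
  intro n x y U
  refine ⟨?_, ?_, ?_⟩
  · intro G G' h
    have hrel : (fun a b => G.Adj a b ∧ a ∈ U ∧ b ∈ U) = fun a b => G'.Adj a b ∧ a ∈ U ∧ b ∈ U := by
      funext a b
      apply propext
      constructor
      · rintro ⟨h1, h2, h3⟩
        refine ⟨?_, h2, h3⟩
        have := (h s(a, b) (by
          intro c hc
          rcases Sym2.mem_iff.1 hc with rfl | rfl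
          · exact h2
          · exact h3)).1 h1
        exact this
      · rintro ⟨h1, h2, h3⟩
        refine ⟨?_, h2, h3⟩
        have := (h s(a, b) (by
          intro c hc
          rcases Sym2.mem_iff.1 hc with rfl | rfl
          · exact h2
          · exact h3)).2 h1
        exact this
    show ind (RU U G x y) = ind (RU U G' x y)
    unfold RU
    rw [hrel]
  · rintro G ⟨-, h⟩
    induction h with
    | refl => exact SimpleGraph.Reachable.refl x
    | tail _ h2 ih => exact ih.trans h2.1.reachable
  · rintro U' G hU ⟨h1, h2⟩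
    refine ⟨hU h1, ?_⟩
    induction h2 with
    | refl => exact Relation.ReflTransGen.refl
    | tail _ h3 ih => exact ih.tail ⟨h3.1, hU h3.2.1, hU h3.2.2⟩

end Q192.KT.RU
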