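import Pool.Agent.Q234.KT.Stm

/-!
# Project KT of helper234, job KT-UP: the one site terms
-/

set_option autoImplicit false

open scoped BigOperators
open Finset

namespace Pool.Agent.Q192.KT.UP

open Pool.Agent.Q234.KT

section

variable {V : Type} [Fintype V] [DecidableEq V]

omit [Fintype V] in
theorem odd_single (X : Finset V) (u : V) : Odd (X ∩ {u}).card ↔ u ∈ X := by
  by_cases h : u ∈ X
  · rw [Finset.inter_singleton_of_mem h]
    simp [h]
  · rw [Finset.inter_singleton_of_notMem h]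
    simp [h]

theorem co_Gp (hW : WalshS) (g : Finset V → ℂ) (u : V) (X : Finset V) :
    co (Gp g {u}) X = if u ∈ X then g X else 0 := by
  have h2 := (hW V).2.1 (fun X => if u ∈ X then g X else 0) X
  rw [← h2]
  congr 1
  funext σ
  unfold Gp
  rw [Finset.sum_filter]
  refine Finset.sum_congr rfl fun Y _ => ?_
  simp only [odd_single]
  split_ifs
  · rfl
  · rw [zero_mul]

theorem co_smul (c : ℂ) (F : (V → Fin 2) → ℂ) (X : Finset V) :
    co (fun σ => c * F σ) X = c * co F X := by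
  have h : ∑ σ, (c * F σ) * ch X σ = c * ∑ σ, F σ * ch X σ := by
    rw [Finset.mul_sum]
    exact Finset.sum_congr rfl fun σ _ => by ring
  unfold co
  rw [h]
  ring

theorem Gp_sub (g g' : Finset V → ℂ) (A : Finset V) (σ : V → Fin 2) :
    Gp (fun X => g X - g' X) A σ = Gp g A σ - Gp g' A σ := by
  unfold Gp
  rw [← Finset.sum_sub_distrib]
  exact Finset.sum_congr rfl fun X _ => by ring

/-- the norm of the one site function -/
theorem nm_le (hW : WalshS) {r : ℝ} (hr : 0 ≤ r) (t : Finset V → ℕ) (g : Finset V → ℂ) (u : V) :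
    nm r t {u} (fun σ => -2 * Gp g {u} σ) ≤ 2 * nb r t u g := by
  unfold nm nb
  rw [Finset.mul_sum, Finset.sum_filter]
  refine Finset.sum_le_sum fun X _ => ?_
  rw [co_smul, co_Gp hW]
  by_cases h : u ∈ X
  · rw [if_pos h, if_pos h]
    have e : ({u} : Finset V) ∪ X = X := by
      rw [Finset.union_eq_right]
      simpa using h
    have hc : (1 : ℝ) ≤ X.card := by
      exact_mod_cast Finset.card_pos.2 ⟨u, h⟩
    rw [e, norm_mul]
    have h2 : ‖(-2 : ℂ)‖ = 2 := by simp
    rw [h2]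
    have h3 : 0 ≤ ‖g X‖ * r ^ t X := by positivity
    nlinarith
  · rw [if_neg h, if_neg h]
    simp

/-- the sum over the sites of the parts through `x` -/
theorem sum_nx (hW : WalshS) (r : ℝ) (t : Finset V → ℕ) (g : Finset V → ℂ) (x : V) :
    ∑ u, nx r t {u} x (fun σ => -2 * Gp g {u} σ) = 2 * nb r t x g := by
  unfold nx nb
  rw [Finset.sum_comm, Finset.mul_sum]
  refine Finset.sum_congr rfl fun X _ => ?_
  have e : ∀ u : V, ‖co (fun σ => -2 * Gp g {u} σ) X‖ * r ^ t ({u} ∪ X) =
      if u ∈ X then 2 * (‖g X‖ * r ^ t X) else 0 := by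
    intro u
    rw [co_smul, co_Gp hW]
    by_cases h : u ∈ X
    · rw [if_pos h, if_pos h]
      have e : ({u} : Finset V) ∪ X = X := by
        rw [Finset.union_eq_right]
        simpa using h
      rw [e, norm_mul]
      have h2 : ‖(-2 : ℂ)‖ = 2 := by simp
      rw [h2]
      ring
    · rw [if_neg h, if_neg h]
      simp
  simp only [e]
  rw [← Finset.sum_filter, Finset.sum_const, nsmul_eq_mul]
  have : (univ.filter fun u => u ∈ X) = X := by
    ext u
    simp
  rw [this]
  ring

theorem nb_nonneg {r : ℝ} (hr : 0 ≤ r) (t : Finset V → ℕ) (g : Finset V → ℂ) (x : V) :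
    0 ≤ nb r t x g := Finset.sum_nonneg fun X _ => by positivity

end

theorem main (hW : WalshS) (hE : ExpS) : UPart := by
  intro V _ _ t r δ η ht hr hδ g g' hg hg' hd x
  have hr0 : (0 : ℝ) ≤ r := by linarith
  have hδ0 : 0 ≤ δ := (nb_nonneg hr0 t g x).trans (hg x)
  have hη0 : 0 ≤ η := (nb_nonneg hr0 t _ x).trans (hd x)
  have hsub : ∀ (u : V), (fun σ => -2 * Gp g {u} σ - -2 * Gp g' {u} σ) =
      fun σ => -2 * Gp (fun X => g X - g' X) {u} σ := by
    intro u
    funext σ
    rw [Gp_sub]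
    ring
  have hpt : ∀ u : V, nx r t {u} x (fun σ => (Complex.exp (-2 * Gp g {u} σ) - 1 + 2 * Gp g {u} σ) -
      (Complex.exp (-2 * Gp g' {u} σ) - 1 + 2 * Gp g' {u} σ)) ≤
      4 * (2 * δ) * nx r t {u} x (fun σ => -2 * Gp (fun X => g X - g' X) {u} σ) +
        4 * (2 * η) * (nx r t {u} x (fun σ => -2 * Gp g {u} σ) +
          nx r t {u} x (fun σ => -2 * Gp g' {u} σ)) := by
    intro u
    have hF : nm r t {u} (fun σ => -2 * Gp g {u} σ) ≤ 2 * δ :=
      (nm_le hW hr0 t g u).trans (by linarith [hg u])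
    have hF' : nm r t {u} (fun σ => -2 * Gp g' {u} σ) ≤ 2 * δ :=
      (nm_le hW hr0 t g' u).trans (by linarith [hg' u])
    have hD : nm r t {u} (fun σ => -2 * Gp (fun X => g X - g' X) {u} σ) ≤ 2 * η :=
      (nm_le hW hr0 t _ u).trans (by linarith [hd u])
    have h := ((hE V t r {u} ht hr (Finset.singleton_nonempty u)
      (fun σ => -2 * Gp g {u} σ) (fun σ => -2 * Gp g' {u} σ) (2 * δ) hF hF' hδ).2 x).2
    rw [hsub u] at h
    have e : (fun σ => (Complex.exp (-2 * Gp g {u} σ) - 1 + 2 * Gp g {u} σ) -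
      (Complex.exp (-2 * Gp g' {u} σ) - 1 + 2 * Gp g' {u} σ)) =
      fun σ => Complex.exp (-2 * Gp g {u} σ) - Complex.exp (-2 * Gp g' {u} σ) -
        (-2 * Gp g {u} σ - -2 * Gp g' {u} σ) := by
      funext σ
      ring
    rw [e]
    refine h.trans ?_
    have h5 : 0 ≤ nx r t {u} x (fun σ => -2 * Gp g {u} σ) +
        nx r t {u} x (fun σ => -2 * Gp g' {u} σ) := by
      refine add_nonneg ?_ ?_ <;>
        exact Finset.sum_nonneg fun X _ => mul_nonneg (norm_nonneg _) (pow_nonneg hr0 _)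
    have h6 := mul_le_mul_of_nonneg_right hD h5
    nlinarith [h6]
  refine (Finset.sum_le_sum fun u _ => hpt u).trans ?_
  rw [Finset.sum_add_distrib, ← Finset.mul_sum, ← Finset.mul_sum, Finset.sum_add_distrib,
    sum_nx hW, sum_nx hW, sum_nx hW]
  have a1 := mul_le_mul_of_nonneg_left (hd x) hδ0
  have a2 := mul_le_mul_of_nonneg_left (hg x) hη0
  have a3 := mul_le_mul_of_nonneg_left (hg' x) hη0
  nlinarith [a1, a2, a3]

end Pool.Agent.Q192.KT.UP
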